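import Mathlib

namespace Pool.Agent.Results.MP_b2b51b_an.Parity

open Complex Metric Set Filter Topology BoundedContinuousFunction

def D : Subalgebra ℂ (ℂ →ᵇ ℂ) where
  carrier := {f | DifferentiableOn ℂ f (ball 0 1)}
  mul_mem' hf hg := hf.mul hg
  add_mem' hf hg := hf.add hg
  algebraMap_mem' c := by
    have : ⇑(algebraMap ℂ (ℂ →ᵇ ℂ) c) = fun _ => c := by ext; simp
    simp [this]

lemma D_closed : IsClosed (D : Set (ℂ →ᵇ ℂ)) := isClosed_of_closure_subset fun f hf => by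
  obtain ⟨u, hu, h⟩ := mem_closure_iff_seq_limit.1 hf
  exact (tendsto_iff_tendstoUniformly.1 h).tendstoLocallyUniformly.tendstoLocallyUniformlyOn
    |>.differentiableOn (Eventually.of_forall hu) isOpen_ball

instance : NormOneClass D := ⟨by
  show ‖(1 : ℂ →ᵇ ℂ)‖ = 1
  exact (norm_const_eq (1 : ℂ)).trans norm_one⟩

def Sq (f : ℂ → ℂ) : Prop :=
  ∃ h : ℂ → ℂ, ContinuousOn h (sphere 0 1) ∧ ∀ z ∈ sphere (0 : ℂ) 1, h z ^ 2 = f z

lemma near {f g : ℂ → ℂ} (hf : Continuous f) (hg : Continuous g) (h : Sq f)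
    (hn : ∀ z ∈ sphere (0 : ℂ) 1, ‖g z - f z‖ < ‖f z‖) : Sq g := by
  obtain ⟨h, h1, h2⟩ := h
  have f0 : ∀ z ∈ sphere (0 : ℂ) 1, f z ≠ 0 := fun z hz => norm_pos_iff.1 ((norm_nonneg _).trans_lt (hn z hz))
  have sl : ∀ z ∈ sphere (0 : ℂ) 1, g z / f z ∈ slitPlane := fun z hz => by
    rw [show g z / f z = 1 + (g z - f z) / f z by field_simp [f0 z hz]; ring]
    exact mem_slitPlane_of_norm_lt_one (by
      rw [norm_div]; exact (div_lt_one (norm_pos_iff.2 (f0 z hz))).2 (hn z hz))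
  refine ⟨fun z => h z * exp (log (g z / f z) / 2), h1.mul
    (((hg.continuousOn.div hf.continuousOn f0).clog sl).div_const 2).cexp, fun z hz => ?_⟩
  rw [mul_pow, h2 z hz, ← exp_nat_mul, Nat.cast_ofNat, mul_div_cancel₀ _ two_ne_zero,
    exp_log (slitPlane_ne_zero (sl z hz)), mul_div_cancel₀ _ (f0 z hz)]

lemma not_sq (k : ℕ) : ¬ Sq fun z => z ^ (2 * k + 1) := by
  rintro ⟨h, h1, h2⟩
  have hm : ∀ t : ℝ, exp (t * I) ∈ sphere (0 : ℂ) 1 := fun t => by simp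
  let φ : ℝ → ℂ := fun t => h (exp (t * I)) * exp (-((2 * k + 1) * (t * I) / 2))
  have hc : Continuous φ := (h1.comp_continuous (by fun_prop) hm).mul (by fun_prop)
  have sq : ∀ t, φ t ^ 2 = 1 := fun t => by
    simp only [φ]
    rw [mul_pow, h2 _ (hm t)]
    simp only [← exp_nat_mul, ← exp_add]
    refine Eq.trans ?_ exp_zero
    congr 1; push_cast; ring
  have e : φ (2 * Real.pi) = -φ 0 := by
    simp only [φ]
    rw [show -((2 * (k : ℂ) + 1) * (((2 * Real.pi : ℝ) : ℂ) * I) / 2) =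
      Real.pi * I + (-(k + 1) : ℤ) * (2 * Real.pi * I) by push_cast; ring, exp_add,
      exp_int_mul_two_pi_mul_I]
    simp
  obtain ⟨t, -, ht⟩ := intermediate_value_uIcc (a := 0) (b := 2 * Real.pi)
    (continuous_re.comp hc).continuousOn (show (0 : ℝ) ∈ _ by
      simp only [Function.comp, e, neg_re, mem_uIcc]
      rcases le_total (φ 0).re 0 with c | c <;> simp [c])
  rcases sq_eq_one_iff.1 (sq t) with c | c <;> simp [c] at ht

def S : Set D := {f | (∀ z ∈ sphere (0 : ℂ) 1, f.1 z ≠ 0) ∧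
  (Sq f.1 ∨ ∃ ζ ∈ ball (0 : ℂ) (1 / 3), f.1 ζ = 0)}

lemma minb {f : ℂ → ℂ} (hf : Continuous f) (c : ℂ) (r : ℝ) (h : ∀ z ∈ sphere c r, f z ≠ 0) :
    ∃ δ > 0, ∀ z ∈ sphere c r, δ ≤ ‖f z‖ :=
  (isCompact_sphere c r).exists_forall_le' hf.norm.continuousOn fun z hz => norm_pos_iff.2 (h z hz)

lemma dle (f g : D) (z : ℂ) : ‖g.1 z - f.1 z‖ ≤ dist g f := by
  rw [← dist_eq_norm]; exact dist_coe_le_dist z

lemma S_open : IsOpen S := by
  refine Metric.isOpen_iff.2 fun f ⟨h0, h⟩ => ?_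
  obtain ⟨δ, δ0, hδ⟩ := minb f.1.continuous 0 1 h0
  have nz : ∀ g : D, dist g f < δ → ∀ z ∈ sphere (0 : ℂ) 1, g.1 z ≠ 0 := fun g hg z hz c => by
    have := dle f g z
    rw [c, zero_sub, norm_neg] at this
    linarith [hδ z hz]
  rcases h with h | ⟨ζ, hζ, h⟩
  · exact ⟨δ, δ0, fun g hg => ⟨nz g hg, Or.inl (near f.1.continuous g.1.continuous h
      fun z hz => (dle f g z).trans_lt (hg.trans_le (hδ z hz)))⟩⟩
  have sub : ball (0 : ℂ) (1 / 3) ⊆ ball 0 1 := ball_subset_ball (by norm_num)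
  have an := DifferentiableOn.analyticOnNhd f.2 isOpen_ball
  rcases (an ζ (sub hζ)).eventually_eq_zero_or_eventually_ne_zero with c | c
  · have := (an.eqOn_zero_of_preconnected_of_eventuallyEq_zero (convex_ball _ _).isPreconnected
      (sub hζ) c).closure f.1.continuous continuous_const
    exact absurd (this (x := 1) (by simp [closure_ball])) (h0 1 (by simp))
  obtain ⟨ρ, ρ0, hρ⟩ := nhds_basis_closedBall.mem_iff.1
    ((eventually_nhdsWithin_iff.1 c).and (isOpen_ball.mem_nhds hζ))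
  obtain ⟨ε, ε0, hε⟩ := minb f.1.continuous ζ ρ fun z hz =>
    (hρ (sphere_subset_closedBall hz)).1 (ne_of_mem_sphere hz ρ0.ne')
  refine ⟨min δ (ε / 2), by positivity, fun g hg => ?_⟩
  rw [mem_ball, lt_min_iff] at hg
  refine ⟨nz g hg.1, Or.inr ?_⟩
  by_contra hn
  push Not at hn
  have dg : DifferentiableOn ℂ (fun z => (g.1 z)⁻¹) (closedBall ζ ρ) :=
    (DifferentiableOn.mono g.2 fun z hz => sub (hρ hz).2).inv fun z hz => hn z (hρ hz).2
  have := norm_le_of_forall_mem_frontier_norm_le (C := (ε / 2)⁻¹) (z := ζ) isBounded_ball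
    (dg.diffContOnCl_ball subset_rfl) (fun z hz => by
      rw [frontier_ball _ ρ0.ne'] at hz
      rw [norm_inv]
      refine inv_anti₀ (by positivity) ?_
      linarith [dle f g z, hε z hz, norm_sub_norm_le (f.1 z) (g.1 z), norm_sub_rev (f.1 z) (g.1 z)])
    (subset_closure (mem_ball_self ρ0))
  rw [norm_inv, inv_le_inv₀ (norm_pos_iff.2 (hn ζ hζ)) (by positivity)] at this
  have := dle f g ζ
  rw [h, sub_zero] at this
  linarith

lemma exa : ∃ a : D, ∀ z : ℂ, ‖z‖ ≤ 1 → a.1 z = z := by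
  have p : ∀ z : ℂ, 0 < max 1 ‖z‖ := fun z => one_pos.trans_le (le_max_left _ _)
  let a := ofNormedAddCommGroup (fun z : ℂ => z / (max 1 ‖z‖ : ℝ))
    (continuous_id.div (by fun_prop) fun z => ofReal_ne_zero.2 (p z).ne') 1 fun z => by
      rw [norm_div, norm_real, Real.norm_of_nonneg (p z).le]
      exact (div_le_one (p z)).2 (le_max_right _ _)
  have h : ∀ z : ℂ, ‖z‖ ≤ 1 → a z = z := fun z hz => by simp [a, max_eq_left hz]
  exact ⟨⟨a, differentiableOn_id.congr fun z hz => h z (by simpa using (mem_ball.1 hz).le)⟩, h⟩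

theorem result : ∃ (A : Type) (_ : NormedCommRing A) (_ : NormedAlgebra ℂ A) (_ : NormOneClass A)
    (_ : CompleteSpace A) (S : Set A) (a : A), IsOpen S ∧ (∀ x ∈ S, ∀ y ∈ S, x * y ∈ S) ∧
    S ≠ univ ∧ a ∈ S ∧
    ¬ ∃ L, Tendsto (fun n : ℕ => infDist (a ^ n) Sᶜ ^ (1 / (n : ℝ))) atTop (𝓝 L) := by
  obtain ⟨a, ha⟩ := exa
  have pw : ∀ (n : ℕ) (z : ℂ), ‖z‖ ≤ 1 → (a ^ n).1 z = z ^ n := fun n z hz => by simp [ha z hz]
  have h0 : (0 : D) ∉ S := fun h => h.1 1 (by simp) rfl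
  have ev : ∀ k, 1 ≤ infDist (a ^ (2 * k)) Sᶜ := fun k => by
    refine (le_infDist ⟨0, h0⟩).2 fun g hg => not_lt.1 fun c => hg ?_
    have key : ∀ z ∈ sphere (0 : ℂ) 1, ‖g.1 z - (a ^ (2 * k)).1 z‖ < ‖(a ^ (2 * k)).1 z‖ :=
      fun z hz => (dle _ g z).trans_lt (by
        rw [pw _ z (by simpa using hz.le), norm_pow, mem_sphere_zero_iff_norm.1 hz, one_pow,
          dist_comm]; exact c)
    refine ⟨fun z hz e => by simpa [e] using key z hz, Or.inl (near (a ^ (2 * k)).1.continuous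
      g.1.continuous ⟨fun z => z ^ k, by fun_prop, fun z hz => ?_⟩ key)⟩
    rw [pw _ z (by simpa using hz.le), ← pow_mul, mul_comm]
  have od : ∀ k, infDist (a ^ (2 * k + 1)) Sᶜ ≤ (1 / 3) ^ (2 * k + 1) := fun k => by
    set c : ℂ := (1 / 3) ^ (2 * k + 1)
    have nc : ‖c‖ = (1 / 3) ^ (2 * k + 1) := by simp [c]
    have ev : ∀ z : ℂ, ‖z‖ ≤ 1 → (a ^ (2 * k + 1) - algebraMap ℂ D c).1 z = z ^ (2 * k + 1) - c :=
      fun z hz => by simp [ha z hz]
    refine (infDist_le_dist_of_mem (y := a ^ (2 * k + 1) - algebraMap ℂ D c) ?_).trans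
      (by rw [dist_self_sub_right, norm_algebraMap', nc])
    rintro ⟨-, ⟨h, h1, h2⟩ | ⟨ζ, hζ, h⟩⟩
    · refine not_sq k (near (f := fun z => z ^ (2 * k + 1) - c) (by fun_prop) (by fun_prop)
        ⟨h, h1, fun z hz => (h2 z hz).trans (ev z (by simpa using hz.le))⟩ fun z hz => ?_)
      have := norm_sub_norm_le (z ^ (2 * k + 1)) c
      rw [norm_pow, mem_sphere_zero_iff_norm.1 hz, one_pow] at this
      have : ‖c‖ ≤ 1 / 3 := nc ▸ pow_le_of_le_one (by norm_num) (by norm_num) (by omega)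
      rw [sub_sub_cancel]; linarith
    · rw [mem_ball_zero_iff] at hζ
      rw [ev ζ (by linarith), sub_eq_zero] at h
      have := pow_lt_pow_left₀ hζ (norm_nonneg _) (show 2 * k + 1 ≠ 0 by omega)
      rw [← norm_pow, h, nc] at this
      exact lt_irrefl _ this
  refine ⟨D, inferInstance, inferInstance, inferInstance, D_closed.completeSpace_coe, S, a, S_open,
    ?_, fun h => h0 (h ▸ mem_univ _), ⟨fun z hz => ?_, Or.inr ⟨0, by simp, ha 0 (by simp)⟩⟩, ?_⟩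
  · rintro f ⟨f0, hf⟩ g ⟨g0, hg⟩
    refine ⟨fun z hz => mul_ne_zero (f0 z hz) (g0 z hz), ?_⟩
    rcases hf with ⟨h, h1, h2⟩ | ⟨ζ, hζ, h⟩
    · rcases hg with ⟨j, j1, j2⟩ | ⟨ζ, hζ, h⟩
      · exact Or.inl ⟨h * j, h1.mul j1, fun z hz => by simp [mul_pow, h2 z hz, j2 z hz]⟩
      · exact Or.inr ⟨ζ, hζ, by simp [h]⟩
    · exact Or.inr ⟨ζ, hζ, by simp [h]⟩
  · rw [ha z (by simpa using hz.le)]
    exact ne_of_mem_sphere hz one_ne_zero
  · rintro ⟨L, hL⟩
    have t := tendsto_id.const_mul_atTop' (two_pos (α := ℕ))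
    have l1 : 1 ≤ L := ge_of_tendsto' (hL.comp t) fun k =>
      Real.one_le_rpow (ev k) (by positivity)
    have l2 : L ≤ 1 / 3 := le_of_tendsto' (hL.comp ((tendsto_add_atTop_nat 1).comp t)) fun k =>
      (Real.rpow_le_rpow infDist_nonneg (od k) (by positivity)).trans_eq (by
        rw [one_div ((_ : ℕ) : ℝ)]
        exact Real.pow_rpow_inv_natCast (by norm_num) (by simp))
    linarith

end Pool.Agent.Results.MP_b2b51b_an.Parity
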